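import Pool.Agent.Helper62.MU.St2

set_option autoImplicit false

open MeasureTheory Metric Set Filter Topology Polynomial
open scoped RealInnerProductSpace

namespace Pool.Agent.Helper47.MU

open Pool.Agent.Helper62.MU2 Pool.Agent.Helper62.Mink

/-- a convex function which is twice differentiable has nonnegative second derivative at `0` -/
lemma second_nonneg {g g' : ℝ → ℝ} {g2 : ℝ} (hg : ConvexOn ℝ univ g)
    (h1 : ∀ τ, HasDerivAt g (g' τ) τ) (h2 : HasDerivAt g' g2 0) : 0 ≤ g2 := by
  have hd : deriv g = g' := funext fun τ => (h1 τ).deriv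
  have hm : MonotoneOn (deriv g) univ :=
    hg.monotoneOn_deriv fun τ _ => (h1 τ).differentiableAt
  rw [hd] at hm
  have hs := hasDerivAt_iff_tendsto_slope.1 h2
  refine ge_of_tendsto hs (Eventually.of_forall fun τ => ?_)
  rw [slope_def_field]
  rcases le_total τ 0 with h | h
  · have := hm (mem_univ τ) (mem_univ (0 : ℝ)) h
    exact div_nonneg_of_nonpos (by linarith) (by linarith)
  · have := hm (mem_univ (0 : ℝ)) (mem_univ τ) h
    exact div_nonneg (by linarith) (by linarith)

theorem hZC (hZA : StZA) (hZB : StZB) : StZC := by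
  intro n e v p f hn he hv hev hf hLP hgood
  obtain ⟨hsub, hsm⟩ := hZA n e p hn he hLP
  -- the clamped density
  set f' : ℝ → ℝ := fun t => f (max (-1) (min 1 t)) with hf'
  have hf'c : Continuous f' := by
    have : ContinuousOn f (Icc (-1) 1) := hf
    exact this.comp_continuous (by fun_prop) fun t =>
      ⟨le_max_left _ _, max_le (by norm_num) (min_le_left _ _)⟩
  have hff : ∀ t : ℝ, t ∈ Icc (-1 : ℝ) 1 → f' t = f t := by
    intro t ht
    simp only [hf']
    rw [min_eq_right ht.2, max_eq_right ht.1]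
  have hin : ∀ w : sphere (0 : E n) 1, (inner ℝ e (w : E n) : ℝ) ∈ Icc (-1 : ℝ) 1 := by
    intro w
    have h1 := abs_real_inner_le_norm e (w : E n)
    have h2 : ‖(w : E n)‖ = 1 := by simpa using w.2
    rw [he, h2, one_mul] at h1
    exact ⟨by linarith [(abs_le.1 h1).1], (abs_le.1 h1).2⟩
  set F : E n → ℝ := fun w => f' (inner ℝ e w) with hF
  have hFc : Continuous (fun w : sphere (0 : E n) 1 => F (w : E n)) := by
    simp only [hF]
    exact hf'c.comp (by fun_prop)
  set G : E n → ℝ := conv F (fun t => p.eval t) with hG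
  have hGz : ∀ y, conv (zf e (fun t => p.eval t)) f y = G y := by
    intro y
    rw [hZB n e y p f he, hG]
    unfold conv
    refine integral_congr_ae (Filter.Eventually.of_forall fun w => ?_)
    simp only [hF]
    rw [hff _ (hin w)]
  have hGsub : ∀ x y, G (x + y) ≤ G x + G y := by
    intro x y
    rw [← hGz, ← hGz, ← hGz]
    exact hgood _ hsub hsm x y
  have hGhom : ∀ c : ℝ, 0 ≤ c → ∀ z, G (c • z) = c * G z := fun c hc z => conv_smul F _ hc z
  have hconv : ConvexOn ℝ univ (fun τ : ℝ => G (e + τ • v)) := by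
    refine ⟨convex_univ, fun s _ t _ a b ha hb hab => ?_⟩
    have h1 : e + (a • s + b • t) • v = a • (e + s • v) + b • (e + t • v) := by
      have hb' : b = 1 - a := by linarith
      subst hb'
      simp only [smul_eq_mul]
      module
    simp only [h1]
    refine (hGsub _ _).trans ?_
    rw [hGhom a ha, hGhom b hb]
    simp only [smul_eq_mul]
    exact le_rfl
  have ha : (0 : ℝ) < ‖e‖ ^ 2 := by rw [he]; norm_num
  set a : ℝ := ‖e‖ ^ 2 with ha'
  have ha1 : a = 1 := by rw [ha', he]; norm_num
  have hP : Continuous (fun w : sphere (0 : E n) 1 => (inner ℝ e (w : E n) : ℝ)) := by fun_prop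
  have hs : Continuous (fun w : sphere (0 : E n) 1 => (inner ℝ v (w : E n) : ℝ)) := by fun_prop
  have e0 : (fun τ : ℝ => G (e + τ • v)) = fun τ =>
      ∫ w : sphere (0 : E n) 1, F w * (rr a τ *
        p.eval ((inner ℝ e (w : E n) + τ * inner ℝ v (w : E n)) / rr a τ))
        ∂(volume : Measure (E n)).toSphere := by
    funext τ
    exact conv_line F p hv hev τ
  have D1 : ∀ τ, HasDerivAt (fun τ : ℝ => G (e + τ • v))
      (∫ w : sphere (0 : E n) 1, F w * d1 p a (inner ℝ e (w : E n)) (inner ℝ v (w : E n)) τ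
        ∂(volume : Measure (E n)).toSphere) τ := by
    intro τ
    rw [e0]
    refine hasDerivAt_param (Ψ := fun τ (w : sphere (0 : E n) 1) => F w * (rr a τ *
        p.eval ((inner ℝ e (w : E n) + τ * inner ℝ v (w : E n)) / rr a τ)))
      (Ψ' := fun τ (w : sphere (0 : E n) 1) =>
        F w * d1 p a (inner ℝ e (w : E n)) (inner ℝ v (w : E n)) τ) ?_ ?_ ?_ τ
    · intro τ
      refine hFc.mul (continuous_const.mul (p.continuous.comp ?_))
      exact (hP.add (continuous_const.mul hs)).div_const _
    · exact (hFc.comp continuous_snd).mul (d1_continuous ha p hP hs)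
    · intro τ w
      exact (hasDerivAt_d0 ha p _ _ τ).const_mul _
  have D2 : ∀ τ, HasDerivAt (fun τ : ℝ => ∫ w : sphere (0 : E n) 1,
      F w * d1 p a (inner ℝ e (w : E n)) (inner ℝ v (w : E n)) τ
        ∂(volume : Measure (E n)).toSphere)
      (∫ w : sphere (0 : E n) 1, F w * d2 p a (inner ℝ e (w : E n)) (inner ℝ v (w : E n)) τ
        ∂(volume : Measure (E n)).toSphere) τ := by
    intro τ
    refine hasDerivAt_param (Ψ := fun τ (w : sphere (0 : E n) 1) =>
        F w * d1 p a (inner ℝ e (w : E n)) (inner ℝ v (w : E n)) τ)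
      (Ψ' := fun τ (w : sphere (0 : E n) 1) =>
        F w * d2 p a (inner ℝ e (w : E n)) (inner ℝ v (w : E n)) τ) ?_ ?_ ?_ τ
    · intro τ
      exact hFc.mul ((d1_continuous ha p hP hs).comp (Continuous.prodMk_right τ))
    · exact (hFc.comp continuous_snd).mul (d2_continuous ha p hP hs)
    · intro τ w
      exact (hasDerivAt_d1 ha p _ _ τ).const_mul _
  have key := second_nonneg hconv D1 (D2 0)
  refine key.trans_eq ?_
  unfold SI
  refine integral_congr_ae (Filter.Eventually.of_forall fun w => ?_)
  simp only [hF]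
  rw [hff _ (hin w), ha1]
  have hr : rr 1 0 = 1 := by unfold rr; norm_num
  unfold d2
  rw [hr]
  simp

end Pool.Agent.Helper47.MU
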